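import Mathlib

namespace Pool.Agent.Work.MP_ad2f8c_co

/-- `x` is a point of local nonconvexity (LNC point) of `E`: a boundary point of `E` such that
`B_r(x) ∩ E` fails to be convex for every `r > 0`. -/
def IsLNC {V : Type} [NormedAddCommGroup V] [InnerProductSpace ℝ V] (E : Set V) (x : V) : Prop :=
  x ∈ frontier E ∧ ∀ r : ℝ, 0 < r → ¬ Convex ℝ (Metric.ball x r ∩ E)

/-- `x` is clearly visible from `y`: for some `r > 0`, `y` sees every point of `B_r(x) ∩ E`,
that is, the closed segment from `y` to each such point lies in `E`. -/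
def ClearlyVisible {V : Type} [NormedAddCommGroup V] [InnerProductSpace ℝ V] (E : Set V)
    (x y : V) : Prop :=
  ∃ r : ℝ, 0 < r ∧ ∀ z ∈ Metric.ball x r ∩ E, segment ℝ y z ⊆ E

/-- Property `C_n`: for any LNC points `x_1, ..., x_n` of `E` (not necessarily distinct) there is
a point of `E` from which all of them are clearly visible. -/
def PropC {V : Type} [NormedAddCommGroup V] [InnerProductSpace ℝ V] (E : Set V) (n : ℕ) : Prop :=
  ∀ x : Fin n → V, (∀ i, IsLNC E (x i)) → ∃ y ∈ E, ∀ i, ClearlyVisible E (x i) y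

/-- `E` is starshaped: some point of `E` sees every point of `E`. -/
def IsStarshaped {V : Type} [NormedAddCommGroup V] [InnerProductSpace ℝ V] (E : Set V) : Prop :=
  ∃ y ∈ E, ∀ x ∈ E, segment ℝ y x ⊆ E

end Pool.Agent.Work.MP_ad2f8c_co
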