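import Pool.Agent.Work.MP_ad2f8c_co.Sweep

namespace Pool.Agent.Work.MP_ad2f8c_co

open Set Metric

section main

variable {V : Type} [NormedAddCommGroup V] [InnerProductSpace ℝ V]

theorem norm_sub_smul_sq (n v : V) (s : ℝ) :
    ‖n - s • v‖ ^ 2 = ‖n‖ ^ 2 - 2 * (s * inner ℝ n v) + s ^ 2 * ‖v‖ ^ 2 := by
  rw [norm_sub_sq_real, inner_smul_right, norm_smul, mul_pow, Real.norm_eq_abs, sq_abs]

/-- If the open ball around `c` through `x` misses `E`, then all points that see `x` lie on the
other side. -/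
theorem inner_le_of_empty_ball {E : Set V} {c x y : V}
    (hball : ∀ z ∈ E, dist c x ≤ dist c z) (hseg : segment ℝ y x ⊆ E) :
    inner ℝ (c - x) (y - x) ≤ 0 := by
  by_contra hn
  push Not at hn
  set n := c - x with hnn
  have hpos : 0 < ‖y - x‖ ^ 2 + 1 := by positivity
  set s : ℝ := min 1 (inner ℝ n (y - x) / (‖y - x‖ ^ 2 + 1)) with hs
  have hs0 : 0 < s := lt_min one_pos (by positivity)
  have hs1 : s ≤ 1 := min_le_left _ _
  have hs2 : s ≤ inner ℝ n (y - x) / (‖y - x‖ ^ 2 + 1) := min_le_right _ _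
  have hz : x + s • (y - x) ∈ segment ℝ y x := by
    rw [segment_symm, segment_eq_image']
    exact ⟨s, ⟨hs0.le, hs1⟩, rfl⟩
  have h1 := hball _ (hseg hz)
  rw [dist_eq_norm, dist_eq_norm] at h1
  have h2 : c - (x + s • (y - x)) = n - s • (y - x) := by rw [hnn]; abel
  rw [h2] at h1
  have h3 : ‖n‖ ^ 2 ≤ ‖n - s • (y - x)‖ ^ 2 := by
    apply pow_le_pow_left₀ (norm_nonneg _) h1
  rw [norm_sub_smul_sq n (y - x) s] at h3
  have h4 : s * (‖y - x‖ ^ 2 + 1) ≤ inner ℝ n (y - x) := by
    rw [le_div_iff₀ hpos] at hs2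
    exact hs2
  have h5 : 0 < s * (2 * inner ℝ n (y - x) - s * ‖y - x‖ ^ 2) := by
    apply mul_pos hs0
    nlinarith
  nlinarith

/-- sliding a ball -/
theorem exists_touch [FiniteDimensional ℝ V] {E : Set V} (hE : IsCompact E) {p u z0 : V}
    (hu : u ∈ E) (hz0 : z0 ∈ segment ℝ p u) (hz0E : z0 ∉ E) :
    ∃ e ∈ E, ∃ n : V, 0 < inner ℝ n (p - e) ∧
      ∀ y, segment ℝ y e ⊆ E → inner ℝ n (y - e) ≤ 0 := by
  have hne : E.Nonempty := ⟨u, hu⟩
  set z : ℝ → V := fun τ => z0 + τ • (u - z0) with hz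
  have hzc : Continuous z := by fun_prop
  set g : ℝ → ℝ := fun τ => infDist (z τ) E with hg
  have hgc : Continuous g := (continuous_infDist_pt E).comp hzc
  have hg0 : 0 < g 0 := by
    have : g 0 = infDist z0 E := by simp [hg, hz]
    rw [this]
    exact (hE.isClosed.notMem_iff_infDist_pos hne).1 hz0E
  set s := g 0 / 2 with hs
  have hs0 : 0 < s := by positivity
  set T : Set ℝ := Icc 0 1 ∩ {τ | g τ ≤ s} with hT
  have hTc : IsCompact T := isCompact_Icc.inter_right (isClosed_le hgc continuous_const)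
  have hT1 : (1 : ℝ) ∈ T := by
    refine ⟨⟨zero_le_one, le_rfl⟩, ?_⟩
    have : g 1 = 0 := by
      have h1 : z 1 = u := by simp [hz]
      simp only [hg, h1]
      exact infDist_zero_of_mem hu
    show g 1 ≤ s
    rw [this]
    exact hs0.le
  obtain ⟨τ, hτT, hτmin⟩ := hTc.exists_isLeast ⟨1, hT1⟩
  have hτ0 : 0 ≤ τ := hτT.1.1
  have hτs : g τ ≤ s := hτT.2
  have hτpos : 0 < τ := by
    rcases hτ0.lt_or_eq with h | h
    · exact h
    · rw [← h] at hτs
      linarith
  have hbefore : ∀ σ, 0 ≤ σ → σ < τ → s < g σ := by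
    intro σ h1 h2
    by_contra hn
    push Not at hn
    have : σ ∈ T := ⟨⟨h1, by linarith [hτT.1.2]⟩, hn⟩
    exact absurd (hτmin this) (not_le.2 h2)
  have hsg : s ≤ g τ := by
    have htend : Filter.Tendsto g (nhdsWithin τ (Iio τ)) (nhds (g τ)) :=
      hgc.continuousAt.continuousWithinAt
    apply ge_of_tendsto htend
    have h1 : Ioo 0 τ ∈ nhdsWithin τ (Iio τ) := Ioo_mem_nhdsLT hτpos
    filter_upwards [h1] with σ hσ
    exact (hbefore σ hσ.1.le hσ.2).le
  obtain ⟨e, heE, hed⟩ := hE.exists_infDist_eq_dist hne (z τ)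
  have hde : dist (z τ) e = g τ := hed.symm
  have hball : ∀ w ∈ E, dist (z τ) e ≤ dist (z τ) w := by
    intro w hw
    rw [hde]
    exact infDist_le_dist_of_mem hw
  have hdpos : 0 < dist (z τ) e := by rw [hde]; linarith
  -- derivative information
  have hderiv : inner ℝ (z τ - e) (u - z0) ≤ 0 := by
    by_contra hn
    push Not at hn
    have hpos : 0 < ‖u - z0‖ ^ 2 + 1 := by positivity
    set κ : ℝ := min τ (inner ℝ (z τ - e) (u - z0) / (‖u - z0‖ ^ 2 + 1)) with hκ
    have hκ0 : 0 < κ := lt_min hτpos (by positivity)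
    have hκ1 : κ ≤ τ := min_le_left _ _
    have hκ2 : κ ≤ inner ℝ (z τ - e) (u - z0) / (‖u - z0‖ ^ 2 + 1) := min_le_right _ _
    have h1 : s < g (τ - κ) := hbefore _ (by linarith) (by linarith)
    have h2 : g (τ - κ) ≤ dist (z (τ - κ)) e := infDist_le_dist_of_mem heE
    have h3 : dist (z τ) e ≤ dist (z (τ - κ)) e := by
      rw [hde]; linarith
    have h4 : z (τ - κ) - e = (z τ - e) - κ • (u - z0) := by
      simp only [hz]; module
    rw [dist_eq_norm, dist_eq_norm, h4] at h3
    have h5 : ‖z τ - e‖ ^ 2 ≤ ‖(z τ - e) - κ • (u - z0)‖ ^ 2 :=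
      pow_le_pow_left₀ (norm_nonneg _) h3 2
    rw [norm_sub_smul_sq (z τ - e) (u - z0) κ] at h5
    have h6 : κ * (‖u - z0‖ ^ 2 + 1) ≤ inner ℝ (z τ - e) (u - z0) := by
      rw [le_div_iff₀ hpos] at hκ2
      exact hκ2
    have h7 : 0 < κ * (2 * inner ℝ (z τ - e) (u - z0) - κ * ‖u - z0‖ ^ 2) := by
      apply mul_pos hκ0
      nlinarith
    nlinarith
  refine ⟨e, heE, z τ - e, ?_, fun y hy => inner_le_of_empty_ball hball hy⟩
  obtain ⟨a, b, ha, hb, hab, hz0eq⟩ := hz0
  -- p = z0 - μ (u - z0)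
  have ha' : 0 < a := by
    rcases ha.lt_or_eq with h | h
    · exact h
    · exfalso
      apply hz0E
      rw [← hz0eq, ← h]
      have : b = 1 := by linarith
      rw [this]
      simpa using hu
  have hp : a • (p - e) = a • (z τ - e) - (b + a * τ) • (u - z0) := by
    have h1 : a • p = z0 - b • u := by rw [← hz0eq]; abel
    have h2 : a = 1 - b := by linarith
    calc a • (p - e) = a • p - a • e := smul_sub _ _ _
      _ = z0 - b • u - a • e := by rw [h1]
      _ = a • (z τ - e) - (b + a * τ) • (u - z0) := by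
        simp only [hz]
        rw [h2]
        module
  have h3 : a * inner ℝ (z τ - e) (p - e) =
      a * ‖z τ - e‖ ^ 2 - (b + a * τ) * inner ℝ (z τ - e) (u - z0) := by
    rw [← inner_smul_right, hp, inner_sub_right, inner_smul_right, inner_smul_right,
      real_inner_self_eq_norm_sq]
  have h4 : 0 < ‖z τ - e‖ := by rw [← dist_eq_norm]; exact hdpos
  have h5 : 0 < a * inner ℝ (z τ - e) (p - e) := by
    rw [h3]
    have h6 : 0 < a * ‖z τ - e‖ ^ 2 := by positivity
    have h7 : 0 ≤ b + a * τ := by positivity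
    nlinarith
  exact pos_of_mul_pos_of_pos_left' h5 ha'
where
  pos_of_mul_pos_of_pos_left' {a b : ℝ} (h : 0 < a * b) (ha : 0 < a) : 0 < b := by
    by_contra hn
    push Not at hn
    nlinarith

/-- visibility region -/
def Vis (E : Set V) (x : V) : Set V := {y | y ∈ E ∧ ClearlyVisible E x y}

theorem exists_helly [FiniteDimensional ℝ V] {E : Set V} (hE : IsCompact E)
    (hC : PropC E (Module.finrank ℝ V + 1)) :
    ∃ p : V, ∀ x, IsLNC E x → p ∈ closure (convexHull ℝ (Vis E x)) := by
  have key : (⋂ i : {x // IsLNC E x}, closure (convexHull ℝ (Vis E (i : V)))).Nonempty := by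
    apply Convex.helly_theorem_compact' (𝕜 := ℝ)
    · intro i
      exact (convex_convexHull ℝ _).closure
    · intro i
      apply Metric.isCompact_of_isClosed_isBounded isClosed_closure
      apply Bornology.IsBounded.closure
      rw [isBounded_convexHull]
      exact hE.isBounded.subset (fun y hy => hy.1)
    · intro I hI
      rcases I.eq_empty_or_nonempty with h0 | ⟨i0, hi0⟩
      · rw [h0]
        simp
      · let f := I.equivFin
        let g : Fin (Module.finrank ℝ V + 1) → {x // IsLNC E x} := fun k =>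
          if h : (k : ℕ) < I.card then (f.symm ⟨k, h⟩ : {x // IsLNC E x}) else i0
        obtain ⟨y, hyE, hy⟩ := hC (fun k => (g k : V)) (fun k => (g k).2)
        refine ⟨y, ?_⟩
        rw [mem_iInter₂]
        intro i hi
        apply subset_closure
        apply subset_convexHull
        refine ⟨hyE, ?_⟩
        have hk : ((f ⟨i, hi⟩ : Fin I.card) : ℕ) < Module.finrank ℝ V + 1 :=
          lt_of_lt_of_le (f ⟨i, hi⟩).2 hI
        have hgi : g ⟨(f ⟨i, hi⟩ : Fin I.card), hk⟩ = i := by
          simp only [g]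
          rw [dif_pos (f ⟨i, hi⟩).2]
          simp
        have := hy ⟨(f ⟨i, hi⟩ : Fin I.card), hk⟩
        rw [hgi] at this
        exact this
  obtain ⟨p, hp⟩ := key
  refine ⟨p, fun x hx => ?_⟩
  rw [mem_iInter] at hp
  exact hp ⟨x, hx⟩

theorem starshaped_of_propC [FiniteDimensional ℝ V] {E : Set V} (hE : IsCompact E)
    (hconn : IsConnected E) (hC : PropC E (Module.finrank ℝ V + 1)) : IsStarshaped E := by
  obtain ⟨w0, hw0⟩ := hconn.nonempty
  by_cases hall : ∀ x ∈ E, LC E x
  · have hconv : Convex ℝ E := convex_of_locally_convex hE hconn.isPreconnected hall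
    exact ⟨w0, hw0, fun x hx => hconv.segment_subset hw0 hx⟩
  push Not at hall
  obtain ⟨p, hp⟩ := exists_helly hE hC
  by_contra hns
  have hu : ∃ u ∈ E, ¬ segment ℝ p u ⊆ E := by
    by_contra hno
    push Not at hno
    exact hns ⟨p, hno w0 hw0 (left_mem_segment ℝ p w0), hno⟩
  obtain ⟨u, huE, hu⟩ := hu
  rw [not_subset] at hu
  obtain ⟨z0, hz0, hz0E⟩ := hu
  obtain ⟨e, heE, n, hnp, hny⟩ := exists_touch hE huE hz0 hz0E
  set l : V →L[ℝ] ℝ := innerSL ℝ n with hl
  have hlv : ∀ v, l v = inner ℝ n v := fun v => rfl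
  have hside : ∀ y, segment ℝ y e ⊆ E → l y ≤ l e := by
    intro y hy
    have := hny y hy
    rw [inner_sub_right] at this
    rw [hlv, hlv]
    linarith
  have hlp : l e < l p := by
    rw [inner_sub_right] at hnp
    rw [hlv, hlv]
    linarith
  have H : Hyp E l e := by
    intro x hx hxl
    have hlnc : IsLNC E x := by
      by_contra hn
      exact hxl (lc_of_not_lnc hx hn)
    by_contra hno
    push Not at hno
    have hsub : closure (convexHull ℝ (Vis E x)) ⊆ {w | l w ≤ l e} := by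
      apply closure_minimal _ (isClosed_le l.continuous continuous_const)
      apply convexHull_min _ (convex_halfSpace_le l.isLinear _)
      intro y hy
      exact hno y hy.2
    exact absurd (hsub (hp x hlnc)) (not_le.2 hlp)
  have hlc : LC E e := by
    by_contra hn
    obtain ⟨y, ⟨r, hr, hvis⟩, hy⟩ := H e heE hn
    have := hside y (hvis e ⟨mem_ball_self hr, heE⟩)
    linarith
  obtain ⟨r, hr, hc⟩ := hlc
  have hball : ∃ r : ℝ, 0 < r ∧ ∀ w ∈ ball e r ∩ E, l w ≤ l e := by
    refine ⟨r, hr, fun w hw => ?_⟩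
    apply hside
    exact (hc.segment_subset hw ⟨mem_ball_self hr, heE⟩).trans inter_subset_right
  exact sweep hE hconn.isPreconnected heE hball H hall

end main

end Pool.Agent.Work.MP_ad2f8c_co
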