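import Pool.Agent.Work.MP_ad2f8c_co.Tietze
import Pool.Agent.Work.MP_ad2f8c_co.Defs

namespace Pool.Agent.Work.MP_ad2f8c_co

open Set Metric

section sweep

variable {V : Type} [NormedAddCommGroup V] [InnerProductSpace ℝ V]

/-- local convexity at a point -/
def LC (E : Set V) (x : V) : Prop := ∃ r : ℝ, 0 < r ∧ Convex ℝ (ball x r ∩ E)

theorem lc_of_not_lnc {E : Set V} {x : V} (hx : x ∈ E) (h : ¬ IsLNC E x) : LC E x := by
  by_cases hf : x ∈ frontier E
  · by_contra hlc
    exact h ⟨hf, fun r hr hc => hlc ⟨r, hr, hc⟩⟩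
  · have hi : x ∈ interior E := by
      by_contra hni
      exact hf ⟨subset_closure hx, hni⟩
    rw [mem_interior_iff_mem_nhds, Metric.mem_nhds_iff] at hi
    obtain ⟨r, hr, hb⟩ := hi
    refine ⟨r, hr, ?_⟩
    rw [inter_eq_left.2 hb]
    exact convex_ball x r

theorem lc_near {E : Set V} {x z : V} {r : ℝ} (hc : Convex ℝ (ball x r ∩ E)) (hz : z ∈ ball x r) :
    LC E z := by
  refine ⟨r - dist z x, by rw [mem_ball] at hz; linarith, ?_⟩
  have : ball z (r - dist z x) ∩ E = ball z (r - dist z x) ∩ (ball x r ∩ E) := by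
    rw [← inter_assoc, inter_eq_left.2 (ball_subset_ball' (by linarith : r - dist z x + dist z x ≤ r))]
  rw [this]
  exact (convex_ball _ _).inter hc

variable (E : Set V) (l : V →L[ℝ] ℝ) (e : V)

/-- half-spaces -/
def D (t : ℝ) : Set V := {w | l e - t ≤ l w}

/-- components -/
def A (t : ℝ) : Set V := connectedComponentIn (E ∩ D l e t) e

variable {E l e}

theorem D_convex (t : ℝ) : Convex ℝ (D l e t) :=
  convex_halfSpace_ge l.isLinear _

theorem D_closed (t : ℝ) : IsClosed (D l e t) := isClosed_le continuous_const l.continuous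

theorem D_mono {s t : ℝ} (h : s ≤ t) : D l e s ⊆ D l e t := fun w hw => by
  simp only [D, mem_ofPred_eq] at *
  linarith

theorem A_subset (t : ℝ) : A E l e t ⊆ E ∩ D l e t := connectedComponentIn_subset _ _

theorem A_mono {s t : ℝ} (h : s ≤ t) : A E l e s ⊆ A E l e t :=
  connectedComponentIn_mono _ (inter_subset_inter_right _ (D_mono h))

theorem self_mem_A (he : e ∈ E) {t : ℝ} (ht : 0 ≤ t) : e ∈ A E l e t :=
  mem_connectedComponentIn ⟨he, by simp only [D, mem_ofPred_eq]; linarith⟩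

theorem A_precon (t : ℝ) : IsPreconnected (A E l e t) := isPreconnected_connectedComponentIn

theorem A_absorb {t : ℝ} {C : Set V} (hC : IsPreconnected C) (hCE : C ⊆ E ∩ D l e t) {a : V}
    (haC : a ∈ C) (ha : a ∈ A E l e t) : C ⊆ A E l e t := by
  have h1 := hC.subset_connectedComponentIn haC hCE
  have h2 : connectedComponentIn (E ∩ D l e t) e = connectedComponentIn (E ∩ D l e t) a :=
    connectedComponentIn_eq ha
  rw [A, h2]
  exact h1

theorem A_segment {t : ℝ} {a v : V} (ha : a ∈ A E l e t) (hseg : segment ℝ a v ⊆ E)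
    (hv : l e - t ≤ l v) : segment ℝ a v ⊆ A E l e t := by
  apply A_absorb (convex_segment a v).isPreconnected _ (left_mem_segment ℝ a v) ha
  apply subset_inter hseg
  exact (D_convex t).segment_subset (A_subset t ha).2 hv

theorem A_closed (hE : IsClosed E) (t : ℝ) : IsClosed (A E l e t) := by
  by_cases hne : (A E l e t).Nonempty
  · obtain ⟨a, ha⟩ := hne
    apply isClosed_of_closure_subset
    apply A_absorb (A_precon t).closure _ (subset_closure ha) ha
    exact closure_minimal (A_subset t) (hE.inter (D_closed t))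
  · rw [not_nonempty_iff_eq_empty.1 hne]
    exact isClosed_empty

theorem A_compact (hE : IsCompact E) (t : ℝ) : IsCompact (A E l e t) :=
  hE.of_isClosed_subset (A_closed hE.isClosed t) ((A_subset t).trans inter_subset_left)

theorem A_convex (hE : IsCompact E) {t : ℝ} (hg : ∀ x ∈ A E l e t, LC E x) :
    Convex ℝ (A E l e t) := by
  apply convex_of_locally_convex (A_compact hE t) (A_precon t)
  intro x hx
  obtain ⟨r, hr, hc⟩ := hg x hx
  refine ⟨r, hr, ?_⟩
  rw [convex_iff_segment_subset]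
  intro u hu v hv
  have huE : u ∈ ball x r ∩ E := ⟨hu.1, (A_subset t hu.2).1⟩
  have hvE : v ∈ ball x r ∩ E := ⟨hv.1, (A_subset t hv.2).1⟩
  have hseg := hc.segment_subset huE hvE
  exact subset_inter (hseg.trans inter_subset_left)
    (A_segment hu.2 (hseg.trans inter_subset_right) (A_subset t hv.2).2)

theorem near_le {c : ℝ} {u v : V} (hu : ∃ r : ℝ, 0 < r ∧ ∀ w ∈ ball u r ∩ E, l w ≤ c)
    (hc : c ≤ l u) (hseg : segment ℝ u v ⊆ E) : l v ≤ c := by
  obtain ⟨r, hr, h⟩ := hu
  by_contra hlt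
  push Not at hlt
  have hpos : 0 < ‖v - u‖ + 1 := by positivity
  set s : ℝ := min 1 (r / (2 * (‖v - u‖ + 1))) with hs
  have hs0 : 0 < s := lt_min one_pos (by positivity)
  have hs1 : s ≤ 1 := min_le_left _ _
  have hs2 : s ≤ r / (2 * (‖v - u‖ + 1)) := min_le_right _ _
  have hz : u + s • (v - u) ∈ segment ℝ u v := by
    rw [segment_eq_image']
    exact ⟨s, ⟨hs0.le, hs1⟩, rfl⟩
  have hball : u + s • (v - u) ∈ ball u r := by
    rw [mem_ball, dist_eq_norm]
    have : u + s • (v - u) - u = s • (v - u) := by abel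
    rw [this, norm_smul, Real.norm_of_nonneg hs0.le]
    calc s * ‖v - u‖ ≤ r / (2 * (‖v - u‖ + 1)) * ‖v - u‖ :=
          mul_le_mul_of_nonneg_right hs2 (norm_nonneg _)
      _ ≤ r / (2 * (‖v - u‖ + 1)) * (‖v - u‖ + 1) := by
          apply mul_le_mul_of_nonneg_left _ (by positivity)
          linarith
      _ = r / 2 := by field_simp
      _ < r := by linarith
  have := h _ ⟨hball, hseg hz⟩
  rw [map_add, map_smul, map_sub, smul_eq_mul] at this
  have h2 : 0 < s * (l v - l u) ∨ l v ≤ l u := by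
    rcases lt_or_ge (l u) (l v) with h3 | h3
    · exact Or.inl (mul_pos hs0 (by linarith))
    · exact Or.inr h3
  rcases h2 with h2 | h2
  · linarith
  · have : l u ≤ c := h u ⟨mem_ball_self hr, hseg (left_mem_segment ℝ u v)⟩
    linarith

/-- hypothesis: every point of local nonconvexity is clearly visible from a point strictly on
the other side -/
def Hyp (E : Set V) (l : V →L[ℝ] ℝ) (e : V) : Prop :=
  ∀ x ∈ E, ¬ LC E x → ∃ y, ClearlyVisible E x y ∧ l e < l y

theorem A_zero (he : e ∈ E) (hball : ∃ r : ℝ, 0 < r ∧ ∀ w ∈ ball e r ∩ E, l w ≤ l e)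
    (H : Hyp E l e) :
    ∀ w ∈ A E l e 0, ∃ r : ℝ, 0 < r ∧ ∀ z ∈ ball w r ∩ E, l z ≤ l e := by
  set F : Set V := {w | w ∈ A E l e 0 ∧ ∃ r : ℝ, 0 < r ∧ ∀ z ∈ ball w r ∩ E, l z ≤ l e} with hF
  have hge : ∀ w ∈ A E l e 0, l e ≤ l w := fun w hw => by
    have := (A_subset 0 hw).2
    simp only [D, mem_ofPred_eq] at this
    linarith
  have hcl : ∀ w ∈ A E l e 0, w ∈ closure F → w ∈ F := by
    intro w hw hwF
    have hwE := (A_subset 0 hw).1
    have hlc : LC E w := by
      by_contra hn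
      obtain ⟨y, ⟨r, hr, hvis⟩, hy⟩ := H w hwE hn
      obtain ⟨u, hu, huF⟩ := mem_closure_iff.1 hwF (ball w r) isOpen_ball (mem_ball_self hr)
      have h1 : segment ℝ u y ⊆ E := by
        rw [segment_symm]
        exact hvis u ⟨hu, (A_subset 0 huF.1).1⟩
      have := near_le huF.2 (hge u huF.1) h1
      linarith
    obtain ⟨r, hr, hc⟩ := hlc
    obtain ⟨u, hu, huF⟩ := mem_closure_iff.1 hwF (ball w r) isOpen_ball (mem_ball_self hr)
    refine ⟨hw, r, hr, fun z hz => ?_⟩
    apply near_le huF.2 (hge u huF.1)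
    exact (hc.segment_subset ⟨hu, (A_subset 0 huF.1).1⟩ hz).trans inter_subset_right
  have hsub : A E l e 0 ⊆ F := by
    by_contra hns
    rw [not_subset] at hns
    obtain ⟨v, hvA, hvF⟩ := hns
    have hchoose : ∀ w : V, ∃ r : ℝ, w ∈ F → (0 < r ∧ ∀ z ∈ ball w r ∩ E, l z ≤ l e) := by
      intro w
      by_cases hw : w ∈ F
      · obtain ⟨r, hr⟩ := hw.2
        exact ⟨r, fun _ => hr⟩
      · exact ⟨0, fun h => absurd h hw⟩
    choose r hr using hchoose
    set U : Set V := ⋃ w ∈ F, ball w (r w) with hU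
    have hUo : IsOpen U := isOpen_biUnion fun w _ => isOpen_ball
    have hFU : F ⊆ U := fun w hw => mem_biUnion hw (mem_ball_self (hr w hw).1)
    have hUF : ∀ z ∈ A E l e 0, z ∈ U → z ∈ F := by
      intro z hz hzU
      rw [hU, mem_iUnion₂] at hzU
      obtain ⟨w, hw, hzw⟩ := hzU
      refine ⟨hz, r w - dist z w, by rw [mem_ball] at hzw; linarith, fun y hy => ?_⟩
      exact (hr w hw).2 y ⟨ball_subset_ball' (by linarith) hy.1, hy.2⟩
    have heF : e ∈ F := ⟨self_mem_A he le_rfl, hball⟩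
    obtain ⟨z, hzA, hzU, hzV⟩ := (A_precon (E := E) (l := l) (e := e) 0) U (closure F)ᶜ hUo
      isClosed_closure.isOpen_compl
      (by
        intro z hz
        by_cases hzc : z ∈ closure F
        · exact Or.inl (hFU (hcl z hz hzc))
        · exact Or.inr hzc)
      ⟨e, heF.1, hFU heF⟩ ⟨v, hvA, fun hvc => hvF (hcl v hvA hvc)⟩
    exact hzV (subset_closure (hUF z hzA hzU))
  exact fun w hw => (hsub hw).2

theorem A_zero_lc (he : e ∈ E) (hball : ∃ r : ℝ, 0 < r ∧ ∀ w ∈ ball e r ∩ E, l w ≤ l e)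
    (H : Hyp E l e) : ∀ w ∈ A E l e 0, LC E w := by
  intro w hw
  by_contra hn
  obtain ⟨y, ⟨r, hr, hvis⟩, hy⟩ := H w (A_subset 0 hw).1 hn
  have h1 : segment ℝ w y ⊆ E := by
    rw [segment_symm]
    exact hvis w ⟨mem_ball_self hr, (A_subset 0 hw).1⟩
  have hge : l e ≤ l w := by
    have := (A_subset 0 hw).2
    simp only [D, mem_ofPred_eq] at this
    linarith
  have := near_le (A_zero he hball H w hw) hge h1
  linarith

theorem extend (hE : IsCompact E) (he : e ∈ E) {t : ℝ} (ht : 0 ≤ t)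
    (hg : ∀ x ∈ A E l e t, LC E x) : ∃ ε : ℝ, 0 < ε ∧ ∀ x ∈ A E l e (t + ε), LC E x := by
  have hK := A_compact (l := l) (e := e) hE t
  have heK : e ∈ A E l e t := self_mem_A he ht
  have hchoose : ∀ w : V, ∃ r : ℝ, w ∈ A E l e t → (0 < r ∧ Convex ℝ (ball w r ∩ E)) := by
    intro w
    by_cases hw : w ∈ A E l e t
    · obtain ⟨r, hr⟩ := hg w hw
      exact ⟨r, fun _ => hr⟩
    · exact ⟨0, fun h => absurd h hw⟩
  choose r hr using hchoose
  set U : Set V := ⋃ w ∈ A E l e t, ball w (r w) with hU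
  have hUo : IsOpen U := isOpen_biUnion fun w _ => isOpen_ball
  have hKU : A E l e t ⊆ U := fun w hw => mem_biUnion hw (mem_ball_self (hr w hw).1)
  obtain ⟨δ, hδ, hδU⟩ := hK.exists_cthickening_subset_open hUo hKU
  have hUlc : ∀ z ∈ U, LC E z := by
    intro z hz
    rw [hU, mem_iUnion₂] at hz
    obtain ⟨w, hw, hzw⟩ := hz
    exact lc_near (hr w hw).2 hzw
  have hUK : ∀ z ∈ U, z ∈ E → l e - t ≤ l z → z ∈ A E l e t := by
    intro z hz hzE hzl
    rw [hU, mem_iUnion₂] at hz
    obtain ⟨w, hw, hzw⟩ := hz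
    have hseg := (hr w hw).2.segment_subset ⟨mem_ball_self (hr w hw).1, (A_subset t hw).1⟩
      ⟨hzw, hzE⟩
    exact A_segment hw (hseg.trans inter_subset_right) hzl (right_mem_segment ℝ w z)
  set B : Set V := E ∩ {z | infDist z (A E l e t) = δ} with hB
  have hBc : IsCompact B :=
    hE.inter_right (isClosed_eq (continuous_infDist_pt _) continuous_const)
  have hBU : ∀ z ∈ B, z ∈ U := by
    intro z hz
    apply hδU
    rw [mem_cthickening_iff, ← ENNReal.ofReal_toReal (infEDist_ne_top ⟨e, heK⟩ : infEDist z (A E l e t) ≠ ⊤)]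
    apply ENNReal.ofReal_le_ofReal
    exact le_of_eq hz.2
  have hBl : ∀ z ∈ B, l z < l e - t := by
    intro z hz
    by_contra hn
    push Not at hn
    have hzK := hUK z (hBU z hz) hz.1 hn
    have h0 : infDist z (A E l e t) = 0 := infDist_zero_of_mem hzK
    have h1 : infDist z (A E l e t) = δ := hz.2
    linarith
  obtain ⟨ε, hε, hεB⟩ : ∃ ε : ℝ, 0 < ε ∧ ∀ z ∈ B, l z < l e - (t + ε) := by
    rcases B.eq_empty_or_nonempty with h0 | hne
    · exact ⟨1, one_pos, fun z hz => by rw [h0] at hz; exact absurd hz (notMem_empty z)⟩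
    · obtain ⟨z0, hz0, hmax⟩ := hBc.exists_isMaxOn hne l.continuous.continuousOn
      have := hBl z0 hz0
      refine ⟨(l e - t - l z0) / 2, by linarith, fun z hz => ?_⟩
      have h2 : l z ≤ l z0 := hmax hz
      linarith
  refine ⟨ε, hε, fun x hx => ?_⟩
  have hdist : infDist x (A E l e t) < δ := by
    by_contra hn
    push Not at hn
    have heA : e ∈ A E l e (t + ε) := self_mem_A he (by linarith)
    have hivt := (A_precon (E := E) (l := l) (e := e) (t + ε)).intermediate_value heA hx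
      (continuous_infDist_pt (A E l e t)).continuousOn
    have h0 : infDist e (A E l e t) = 0 := infDist_zero_of_mem heK
    obtain ⟨z, hzA, hz⟩ := hivt (⟨by rw [h0]; exact hδ.le, hn⟩ :
      δ ∈ Icc (infDist e (A E l e t)) (infDist x (A E l e t)))
    have hzB : z ∈ B := ⟨(A_subset _ hzA).1, hz⟩
    have h3 := hεB z hzB
    have h4 := (A_subset _ hzA).2
    simp only [D, mem_ofPred_eq] at h4
    linarith
  apply hUlc
  apply hδU
  rw [mem_cthickening_iff, ← ENNReal.ofReal_toReal (infEDist_ne_top ⟨e, heK⟩ : infEDist x (A E l e t) ≠ ⊤)]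
  exact ENNReal.ofReal_le_ofReal hdist.le

theorem sweep (hE : IsCompact E) (hconn : IsPreconnected E) (he : e ∈ E)
    (hball : ∃ r : ℝ, 0 < r ∧ ∀ w ∈ ball e r ∩ E, l w ≤ l e) (H : Hyp E l e)
    (hQ : ∃ x ∈ E, ¬ LC E x) : False := by
  obtain ⟨x0, hx0, hx0lc⟩ := hQ
  set Bad : Set ℝ := {t | 0 ≤ t ∧ ∃ x ∈ A E l e t, ¬ LC E x} with hBad
  have hBne : Bad.Nonempty := by
    obtain ⟨m, hm, hmin⟩ := hE.exists_isMinOn ⟨e, he⟩ l.continuous.continuousOn
    have hme : l m ≤ l e := hmin he
    refine ⟨l e - l m, by linarith, x0, ?_, hx0lc⟩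
    have hsub : E ⊆ E ∩ D l e (l e - l m) := by
      intro w hw
      refine ⟨hw, ?_⟩
      have : l m ≤ l w := hmin hw
      simp only [D, mem_ofPred_eq]
      linarith
    exact hconn.subset_connectedComponentIn he hsub hx0
  have hBb : BddBelow Bad := ⟨0, fun t ht => ht.1⟩
  set t1 := sInf Bad with ht1
  have hgood : ∀ t, 0 ≤ t → t < t1 → ∀ x ∈ A E l e t, LC E x := by
    intro t ht htt x hx
    by_contra hn
    exact absurd (csInf_le hBb (⟨ht, x, hx, hn⟩ : t ∈ Bad)) (not_le.2 htt)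
  have hle : ∀ ε : ℝ, (∀ x ∈ A E l e ε, LC E x) → ε ≤ t1 := by
    intro ε hε
    apply le_csInf hBne
    intro t ht
    by_contra hn
    push Not at hn
    obtain ⟨_, x, hx, hxl⟩ := ht
    exact hxl (hε x (A_mono hn.le hx))
  have ht1pos : 0 < t1 := by
    obtain ⟨ε, hε, h⟩ := extend hE he le_rfl (A_zero_lc he hball H)
    rw [zero_add] at h
    exact lt_of_lt_of_le hε (hle ε h)
  set Ainf : Set V := {a | ∃ t, 0 ≤ t ∧ t < t1 ∧ a ∈ A E l e t} with hAinf
  have hAE : Ainf ⊆ E := by
    rintro a ⟨t, _, _, ha⟩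
    exact (A_subset t ha).1
  have heA : e ∈ Ainf := ⟨0, le_rfl, ht1pos, self_mem_A he le_rfl⟩
  have hclE : closure Ainf ⊆ E := closure_minimal hAE hE.isClosed
  have hloc : ∀ w ∈ closure Ainf, ∀ r, 0 < r → Convex ℝ (ball w r ∩ E) →
      ∀ v ∈ ball w r, v ∈ E → l e - t1 ≤ l v → v ∈ closure Ainf := by
    intro w hw r hr hc v hv hvE hvl
    obtain ⟨a, haw, t, ht0, htt, ha⟩ := mem_closure_iff.1 hw (ball w r) isOpen_ball
      (mem_ball_self hr)
    have hseg := hc.segment_subset ⟨haw, (A_subset t ha).1⟩ ⟨hv, hvE⟩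
    have hopen : openSegment ℝ a v ⊆ Ainf := by
      rintro z ⟨α, β, hα, hβ, hab, rfl⟩
      have h1 : α * t + β * t1 < t1 := by nlinarith
      have h2 : t ≤ α * t + β * t1 := by nlinarith
      refine ⟨α * t + β * t1, by linarith, h1, ?_⟩
      have hzs : α • a + β • v ∈ segment ℝ a v := ⟨α, β, hα.le, hβ.le, hab, rfl⟩
      have hsub : segment ℝ a (α • a + β • v) ⊆ segment ℝ a v :=
        (convex_segment a v).segment_subset (left_mem_segment ℝ a v) hzs
      apply A_segment (A_mono h2 ha) (hsub.trans (hseg.trans inter_subset_right)) _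
        (right_mem_segment ℝ _ _)
      have h3 := (A_subset t ha).2
      simp only [D, mem_ofPred_eq] at h3
      rw [map_add, map_smul, map_smul, smul_eq_mul, smul_eq_mul]
      have h4 : α * (l e - t) ≤ α * l a := mul_le_mul_of_nonneg_left h3 hα.le
      have h5 : β * (l e - t1) ≤ β * l v := mul_le_mul_of_nonneg_left hvl hβ.le
      have h6 : α * (l e - t) + β * (l e - t1) = l e - (α * t + β * t1) := by
        linear_combination (l e) * hab
      linarith
    exact closure_mono hopen (segment_subset_closure_openSegment (right_mem_segment ℝ a v))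
  by_cases hall : ∀ w ∈ closure Ainf, LC E w
  · -- then we can go beyond `t1`
    have hsub : A E l e t1 ⊆ closure Ainf := by
      by_contra hns
      rw [not_subset] at hns
      obtain ⟨v, hvA, hvF⟩ := hns
      have hchoose : ∀ w : V, ∃ r : ℝ, w ∈ closure Ainf →
          (0 < r ∧ Convex ℝ (ball w r ∩ E)) := by
        intro w
        by_cases hw : w ∈ closure Ainf
        · obtain ⟨r, hr⟩ := hall w hw
          exact ⟨r, fun _ => hr⟩
        · exact ⟨0, fun h => absurd h hw⟩
      choose r hr using hchoose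
      set U : Set V := ⋃ w ∈ closure Ainf, ball w (r w) with hU
      have hUo : IsOpen U := isOpen_biUnion fun w _ => isOpen_ball
      have hFU : closure Ainf ⊆ U := fun w hw => mem_biUnion hw (mem_ball_self (hr w hw).1)
      obtain ⟨z, hzA, hzU, hzV⟩ := (A_precon (E := E) (l := l) (e := e) t1) U (closure Ainf)ᶜ hUo
        isClosed_closure.isOpen_compl
        (by
          intro z hz
          by_cases hzc : z ∈ closure Ainf
          · exact Or.inl (hFU hzc)
          · exact Or.inr hzc)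
        ⟨e, self_mem_A he ht1pos.le, hFU (subset_closure heA)⟩ ⟨v, hvA, hvF⟩
      rw [hU, mem_iUnion₂] at hzU
      obtain ⟨w, hw, hzw⟩ := hzU
      exact hzV (hloc w hw (r w) (hr w hw).1 (hr w hw).2 z hzw (A_subset _ hzA).1
        (A_subset _ hzA).2)
    obtain ⟨ε, hε, h⟩ := extend hE he ht1pos.le (fun x hx => hall x (hsub hx))
    have := hle _ h
    linarith
  · push Not at hall
    obtain ⟨x, hx, hxl⟩ := hall
    obtain ⟨y, ⟨r, hr, hvis⟩, hy⟩ := H x (hclE hx) hxl
    obtain ⟨a, hax, t, ht0, htt, ha⟩ := mem_closure_iff.1 hx (ball x r) isOpen_ball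
      (mem_ball_self hr)
    have h1 : segment ℝ a y ⊆ E := by
      rw [segment_symm]
      exact hvis a ⟨hax, (A_subset t ha).1⟩
    have hyA : y ∈ A E l e t := A_segment ha h1 (by linarith) (right_mem_segment ℝ a y)
    have hconv := A_convex hE (hgood t ht0 htt)
    have h2 : segment ℝ e y ⊆ E :=
      (hconv.segment_subset (self_mem_A he ht0) hyA).trans
        ((A_subset t).trans inter_subset_left)
    have := near_le hball le_rfl h2
    linarith

end sweep

end Pool.Agent.Work.MP_ad2f8c_co
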