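import Mathlib

namespace Pool.Agent.Work.MP_ad2f8c_co

open Set Metric

section tietze

variable {V : Type*} [NormedAddCommGroup V] [InnerProductSpace ℝ V]

/-- uniform local convexity of compact locally convex sets -/
theorem exists_uniform {S : Set V} (hS : IsCompact S)
    (hloc : ∀ x ∈ S, ∃ r > 0, Convex ℝ (ball x r ∩ S)) :
    ∃ δ > 0, ∀ u ∈ S, ∀ v ∈ S, dist u v < δ → segment ℝ u v ⊆ S := by
  choose! r hr hc using hloc
  obtain ⟨δ, hδ, h⟩ := lebesgue_number_lemma_of_metric (c := fun x : S => ball (x : V) (r x)) hS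
    (fun i => isOpen_ball) (fun x hx => mem_iUnion.2 ⟨⟨x, hx⟩, mem_ball_self (hr x hx)⟩)
  refine ⟨δ, hδ, fun u hu v hv huv => ?_⟩
  obtain ⟨i, hi⟩ := h u hu
  have h1 : u ∈ ball (i : V) (r i) ∩ S := ⟨hi (mem_ball_self hδ), hu⟩
  have h2 : v ∈ ball (i : V) (r i) ∩ S := ⟨hi (by rwa [mem_ball, dist_comm]), hv⟩
  exact ((hc i i.2).segment_subset h1 h2).trans inter_subset_right

/-- chains with small steps -/
def Chains (S : Set V) (ε : ℝ) (n : ℕ) (x y : V) : Set (ℕ → V) :=
  {c | c 0 = x ∧ (∀ i, n ≤ i → c i = y) ∧ (∀ i, c i ∈ S) ∧ ∀ i, dist (c i) (c (i + 1)) ≤ ε}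

theorem chains_trans {S : Set V} {ε : ℝ} {n m : ℕ} {x y z : V}
    (h1 : (Chains S ε n x y).Nonempty) (h2 : (Chains S ε m y z).Nonempty) :
    (Chains S ε (n + m) x z).Nonempty := by
  obtain ⟨c, hc0, hcn, hcS, hcd⟩ := h1
  obtain ⟨d, hd0, hdn, hdS, hdd⟩ := h2
  refine ⟨fun i => if i < n then c i else d (i - n), ?_, ?_, ?_, ?_⟩
  · simp only
    split_ifs with h
    · exact hc0
    · have : n = 0 := by omega
      subst this
      rw [hd0, ← hc0, hcn 0 le_rfl]
  · intro i hi
    simp only
    rw [if_neg (by omega)]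
    exact hdn _ (by omega)
  · intro i
    simp only
    split_ifs
    · exact hcS i
    · exact hdS _
  · intro i
    simp only
    by_cases h : i + 1 < n
    · rw [if_pos (by omega), if_pos h]; exact hcd i
    · rw [if_neg h]
      by_cases h' : i < n
      · rw [if_pos h']
        have : i + 1 - n = 0 := by omega
        rw [this, hd0, ← hcn (i + 1) (by omega)]
        exact hcd i
      · rw [if_neg h']
        have : i + 1 - n = (i - n) + 1 := by omega
        rw [this]
        exact hdd _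

theorem chains_of_dist {S : Set V} {ε : ℝ} (hε : 0 < ε) {x y : V} (hx : x ∈ S) (hy : y ∈ S)
    (h : dist x y ≤ ε) : (Chains S ε 1 x y).Nonempty := by
  refine ⟨fun i => if i = 0 then x else y, ?_, ?_, ?_, ?_⟩
  · simp
  · intro i hi
    simp only
    rw [if_neg (by omega)]
  · intro i
    simp only
    split_ifs
    · exact hx
    · exact hy
  · intro i
    simp only
    rw [if_neg (Nat.succ_ne_zero i)]
    split_ifs
    · exact h
    · rw [dist_self]; exact hε.le

theorem exists_chain {S : Set V} (hS : IsPreconnected S) {ε : ℝ} (hε : 0 < ε) {x y : V}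
    (hx : x ∈ S) (hy : y ∈ S) : ∃ n, (Chains S ε n x y).Nonempty := by
  apply hS.induction₂' (fun x y => ∃ n, (Chains S ε n x y).Nonempty)
  · intro u hu
    have h1 : ∀ᶠ v in nhdsWithin u S, v ∈ ball u ε := by
      apply nhdsWithin_le_nhds
      exact ball_mem_nhds u hε
    filter_upwards [h1, self_mem_nhdsWithin] with v hv hvS
    rw [mem_ball] at hv
    exact ⟨⟨1, chains_of_dist hε hu hvS (by rw [dist_comm]; exact hv.le)⟩,
      ⟨1, chains_of_dist hε hvS hu hv.le⟩⟩
  · rintro a b c _ _ _ ⟨n, hn⟩ ⟨m, hm⟩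
    exact ⟨n + m, chains_trans hn hm⟩
  · exact hx
  · exact hy

theorem isCompact_chains {S : Set V} (hS : IsCompact S) (ε : ℝ) (n : ℕ) (x y : V) :
    IsCompact (Chains S ε n x y) := by
  have h1 : IsCompact (Set.univ.pi (fun _ : ℕ => S)) := isCompact_univ_pi (fun _ => hS)
  apply h1.of_isClosed_subset
  · have : Chains S ε n x y = {c : ℕ → V | c 0 = x} ∩ (⋂ i, {c : ℕ → V | n ≤ i → c i = y}) ∩
        (⋂ i, {c : ℕ → V | c i ∈ S}) ∩ (⋂ i, {c : ℕ → V | dist (c i) (c (i + 1)) ≤ ε}) := by
      ext c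
      simp only [Chains, mem_inter_iff, mem_iInter]
      constructor
      · rintro ⟨a, b, c, d⟩; exact ⟨⟨⟨a, b⟩, c⟩, d⟩
      · rintro ⟨⟨⟨a, b⟩, c⟩, d⟩; exact ⟨a, b, c, d⟩
    rw [this]
    refine ((IsClosed.inter ?_ ?_).inter ?_).inter ?_
    · exact isClosed_eq (continuous_apply 0) continuous_const
    · apply isClosed_iInter
      intro i
      by_cases hi : n ≤ i
      · have : {c : ℕ → V | n ≤ i → c i = y} = {c : ℕ → V | c i = y} := by
          ext c; exact ⟨fun h => h hi, fun h _ => h⟩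
        rw [this]
        exact isClosed_eq (continuous_apply i) continuous_const
      · have : {c : ℕ → V | n ≤ i → c i = y} = univ := by
          ext c; exact ⟨fun _ => trivial, fun _ h => absurd h hi⟩
        rw [this]
        exact isClosed_univ
    · apply isClosed_iInter
      intro i
      exact hS.isClosed.preimage (continuous_apply i)
    · apply isClosed_iInter
      intro i
      exact isClosed_le ((continuous_apply i).dist (continuous_apply (i + 1))) continuous_const
  · intro c hc i _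
    exact hc.2.2.1 i

theorem par_id (a b c : V) :
    ‖b - a‖ ^ 2 + ‖c - b‖ ^ 2 = 2 * ‖(1 / 2 : ℝ) • (c - a)‖ ^ 2 +
      2 * ‖b - (1 / 2 : ℝ) • (a + c)‖ ^ 2 := by
  have h := parallelogram_law_with_norm ℝ (b - (1 / 2 : ℝ) • (a + c)) ((1 / 2 : ℝ) • (c - a))
  have e1 : b - (1 / 2 : ℝ) • (a + c) + (1 / 2 : ℝ) • (c - a) = b - a := by module
  have e2 : b - (1 / 2 : ℝ) • (a + c) - (1 / 2 : ℝ) • (c - a) = -(c - b) := by module
  rw [e1, e2, norm_neg] at h
  nlinarith [h]

/-- In a shortest chain the interior points are midpoints of their neighbours. -/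
theorem exists_arith {S : Set V} (hS : IsCompact S) {δ : ℝ} (hδ : 0 < δ)
    (hloc : ∀ u ∈ S, ∀ v ∈ S, dist u v < δ → segment ℝ u v ⊆ S) {n : ℕ} {x y : V}
    (hne : (Chains S (δ / 3) n x y).Nonempty) :
    ∃ c ∈ Chains S (δ / 3) n x y, ∀ j, j + 1 < n → c (j + 2) - c (j + 1) = c (j + 1) - c j := by
  have hcont : Continuous (fun c : ℕ → V => ∑ i ∈ Finset.range n, ‖c (i + 1) - c i‖ ^ 2) := by
    fun_prop
  obtain ⟨c, hc, hmin⟩ := (isCompact_chains hS (δ / 3) n x y).exists_isMinOn hne
    hcont.continuousOn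
  refine ⟨c, hc, fun j hj => ?_⟩
  obtain ⟨hc0, hcn, hcS, hcd⟩ := hc
  set m : V := (1 / 2 : ℝ) • (c j + c (j + 2)) with hm
  have hm1 : m - c j = (1 / 2 : ℝ) • (c (j + 2) - c j) := by rw [hm]; module
  have hm2 : c (j + 2) - m = (1 / 2 : ℝ) • (c (j + 2) - c j) := by rw [hm]; module
  have hdd : dist (c j) (c (j + 2)) ≤ 2 * (δ / 3) := by
    calc dist (c j) (c (j + 2)) ≤ dist (c j) (c (j + 1)) + dist (c (j + 1)) (c (j + 2)) :=
          dist_triangle _ _ _
      _ ≤ δ / 3 + δ / 3 := add_le_add (hcd j) (hcd (j + 1))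
      _ = 2 * (δ / 3) := by ring
  have hnorm : ‖(1 / 2 : ℝ) • (c (j + 2) - c j)‖ ≤ δ / 3 := by
    rw [norm_smul, ← dist_eq_norm, dist_comm]
    rw [Real.norm_of_nonneg (by norm_num)]
    linarith
  have hmS : m ∈ S := by
    apply hloc (c j) (hcS j) (c (j + 2)) (hcS (j + 2)) (by linarith)
    rw [hm]
    refine ⟨1 / 2, 1 / 2, by norm_num, by norm_num, by norm_num, ?_⟩
    module
  set c' : ℕ → V := Function.update c (j + 1) m with hc'
  have h1 : c' (j + 1) = m := by rw [hc']; simp
  have h2 : ∀ i, i ≠ j + 1 → c' i = c i := fun i hi => by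
    rw [hc']; exact Function.update_of_ne hi _ _
  have hmem : c' ∈ Chains S (δ / 3) n x y := by
    refine ⟨?_, ?_, ?_, ?_⟩
    · rw [h2 0 (by omega)]; exact hc0
    · intro i hi
      rw [h2 i (by omega)]; exact hcn i hi
    · intro i
      by_cases hi : i = j + 1
      · rw [hi, h1]; exact hmS
      · rw [h2 i hi]; exact hcS i
    · intro i
      by_cases hi : i = j + 1
      · rw [hi, h1, h2 (j + 1 + 1) (by omega), dist_comm, dist_eq_norm]
        show ‖c (j + 2) - m‖ ≤ _
        rw [hm2]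
        exact hnorm
      · rw [h2 i hi]
        by_cases hi' : i = j
        · rw [hi', h1, dist_comm, dist_eq_norm, hm1]
          exact hnorm
        · rw [h2 (i + 1) (by omega)]
          exact hcd i
  have hle := hmin hmem
  simp only at hle
  have hdiff : ∑ i ∈ Finset.range n, (‖c' (i + 1) - c' i‖ ^ 2 - ‖c (i + 1) - c i‖ ^ 2) =
      ∑ i ∈ ({j, j + 1} : Finset ℕ), (‖c' (i + 1) - c' i‖ ^ 2 - ‖c (i + 1) - c i‖ ^ 2) := by
    symm
    apply Finset.sum_subset
    · intro i hi
      simp only [Finset.mem_insert, Finset.mem_singleton] at hi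
      rw [Finset.mem_range]
      omega
    · intro i _ hi
      simp only [Finset.mem_insert, Finset.mem_singleton, not_or] at hi
      rw [h2 i hi.2, h2 (i + 1) (by omega)]
      ring
  rw [Finset.sum_pair (by omega)] at hdiff
  rw [Finset.sum_sub_distrib] at hdiff
  rw [h1, h2 j (by omega), h2 (j + 1 + 1) (by omega)] at hdiff
  have e2 : c (j + 1 + 1) = c (j + 2) := rfl
  rw [e2, hm1, hm2] at hdiff
  have hp := par_id (c j) (c (j + 1)) (c (j + 2))
  rw [← hm] at hp
  have hzero : ‖c (j + 1) - m‖ ^ 2 ≤ 0 := by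
    have : ∑ i ∈ Finset.range n, ‖c (i + 1) - c i‖ ^ 2 ≤
      ∑ i ∈ Finset.range n, ‖c' (i + 1) - c' i‖ ^ 2 := hle
    linarith
  have hz : c (j + 1) - m = 0 := by
    have : ‖c (j + 1) - m‖ = 0 := by
      have h0 := norm_nonneg (c (j + 1) - m)
      nlinarith
    exact norm_eq_zero.1 this
  have hz' : c (j + 1) = m := sub_eq_zero.1 hz
  rw [hz', hm]
  module

theorem arith_form {n : ℕ} {c : ℕ → V}
    (h : ∀ j, j + 1 < n → c (j + 2) - c (j + 1) = c (j + 1) - c j) :
    ∀ i ≤ n, c i = c 0 + (i : ℝ) • (c 1 - c 0) := by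
  have hd : ∀ j, j < n → c (j + 1) - c j = c 1 - c 0 := by
    intro j
    induction j with
    | zero => intro _; rfl
    | succ j ih =>
      intro hj
      rw [← ih (by omega)]
      exact h j hj
  intro i
  induction i with
  | zero => intro _; simp
  | succ i ih =>
    intro hi
    have h1 := hd i (by omega)
    have h2 := ih (by omega)
    have h3 : c (i + 1) = c i + (c 1 - c 0) := by rw [← h1]; abel
    rw [h3, h2]
    push_cast
    module

/-- **Tietze-Nakajima theorem** for compact sets: a compact, preconnected, locally convex set is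
convex. -/
theorem convex_of_locally_convex {S : Set V} (hS : IsCompact S) (hconn : IsPreconnected S)
    (hloc : ∀ x ∈ S, ∃ r > 0, Convex ℝ (ball x r ∩ S)) : Convex ℝ S := by
  obtain ⟨δ, hδ, hu⟩ := exists_uniform hS hloc
  rw [convex_iff_segment_subset]
  intro x hx y hy
  obtain ⟨n, hn⟩ := exists_chain hconn (ε := δ / 3) (by positivity) hx hy
  obtain ⟨c, ⟨hc0, hcn, hcS, hcd⟩, harith⟩ := exists_arith hS hδ hu hn
  have hform := arith_form harith
  rcases Nat.eq_zero_or_pos n with h0 | hpos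
  · subst h0
    have : x = y := by rw [← hc0]; exact hcn 0 le_rfl
    subst this
    rw [segment_same]
    exact singleton_subset_iff.2 hx
  · intro p hp
    rw [segment_eq_image'] at hp
    obtain ⟨s, ⟨hs0, hs1⟩, rfl⟩ := hp
    simp only
    have hn0 : (0 : ℝ) < n := by exact_mod_cast hpos
    have hy' : y - x = (n : ℝ) • (c 1 - c 0) := by
      have := hform n le_rfl
      rw [hcn n le_rfl] at this
      rw [this, hc0]
      abel
    rcases eq_or_lt_of_le hs1 with h1 | h1
    · rw [h1]
      simpa using hy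
    · set i := ⌊s * n⌋₊ with hi
      have hsn : 0 ≤ s * n := by positivity
      have hi1 : (i : ℝ) ≤ s * n := Nat.floor_le hsn
      have hi2 : s * n < i + 1 := Nat.lt_floor_add_one _
      have hin : i < n := by
        have : (i : ℝ) < n := by nlinarith
        exact_mod_cast this
      apply hu (c i) (hcS i) (c (i + 1)) (hcS (i + 1)) (by linarith [hcd i])
      rw [segment_eq_image']
      refine ⟨s * n - i, ⟨by linarith, by linarith⟩, ?_⟩
      simp only
      rw [hform i hin.le, hform (i + 1) hin, hy', ← hc0]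
      push_cast
      module

end tietze

end Pool.Agent.Work.MP_ad2f8c_co
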